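import Mathlib
import Pool.Prelude.Def_H_d5b5ae8f

set_option autoImplicit false

namespace Pool.Agent.Lib.Pb27023

open Finset

/-- The squares modulo `p`, as natural numbers. -/
def sqres (p : ℕ) : Finset ℕ := (range ((p + 1) / 2)).image (fun k => k ^ 2 % p)

lemma sqres_card (p : ℕ) : (sqres p).card ≤ (p + 1) / 2 := by
  unfold sqres
  exact Finset.card_image_le.trans (by rw [Finset.card_range])

lemma mem_sqres {p : ℕ} (hp : Odd p) (n : ℕ) : n ^ 2 % p ∈ sqres p := by
  obtain ⟨t, ht⟩ := hp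
  have hp0 : 0 < p := by omega
  unfold sqres
  rw [Finset.mem_image]
  set r := n % p with hr
  have hrp : r < p := Nat.mod_lt _ hp0
  have h1 : n ^ 2 % p = r ^ 2 % p := by
    rw [hr]
    exact (Nat.pow_mod n 2 p).trans rfl
  rcases Nat.lt_or_ge r ((p + 1) / 2) with h | h
  · exact ⟨r, Finset.mem_range.2 h, h1.symm⟩
  · refine ⟨p - r, Finset.mem_range.2 (by omega), ?_⟩
    rw [h1]
    have h2 : (p - r) ^ 2 ≡ r ^ 2 [MOD p] := by
      have h3 : ((p - r : ℕ) : ℤ) = (p : ℤ) - r := by
        rw [Nat.cast_sub hrp.le]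
      rw [← Int.natCast_modEq_iff]
      push_cast
      rw [h3]
      apply Int.modEq_iff_dvd.2
      exact ⟨2 * r - p, by ring⟩
    exact h2

/-- Counting close pairs of a Sidon set in the fibres of a map that detects divisibility by `e`. -/
lemma fibre_count {κ : Type*} [DecidableEq κ] (A : Finset ℕ) (hA : IsSidon (A : Set ℕ)) (M e : ℕ)
    (he : 0 < e) (hM : ∀ a ∈ A, a ≤ M) (φ : ℕ → κ) (T : Finset κ) (hφ : ∀ a ∈ A, φ a ∈ T)
    (hdiv : ∀ a ∈ A, ∀ c ∈ A, φ a = φ c → c < a → e ∣ a - c) :
    A.card ^ 2 ≤ T.card * (A.card + 2 * (M / e)) := by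
  classical
  -- pairs in the same fibre
  set Q := (A ×ˢ A).filter (fun x => φ x.1 = φ x.2) with hQ
  set Qlt := (A ×ˢ A).filter (fun x => φ x.1 = φ x.2 ∧ x.2 < x.1) with hQlt
  have hQlt_card : Qlt.card ≤ M / e := by
    have hinj : Qlt.card ≤ ((Finset.Icc 1 (M / e)).image (fun k => e * k)).card := by
      apply Finset.card_le_card_of_injOn (fun x => x.1 - x.2)
      · intro x hx
        simp only [hQlt, Finset.coe_filter, Finset.mem_product, Set.mem_setOf_eq] at hx
        obtain ⟨⟨h1, h2⟩, h3, h4⟩ := hx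
        simp only [Finset.coe_image, Set.mem_image, Finset.coe_Icc, Set.mem_Icc]
        obtain ⟨k, hk⟩ := hdiv _ h1 _ h2 h3 h4
        refine ⟨k, ⟨?_, ?_⟩, hk.symm⟩
        · rcases Nat.eq_zero_or_pos k with h | h
          · rw [h, Nat.mul_zero] at hk; omega
          · exact h
        · rw [Nat.le_div_iff_mul_le he, mul_comm, ← hk]
          exact (Nat.sub_le _ _).trans (hM _ h1)
      · intro x hx x' hx' heq
        simp only [hQlt, Finset.coe_filter, Finset.mem_product, Set.mem_setOf_eq] at hx hx'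
        have := Finset.IsSidon.eq_of_tsub hA hx.1.1 hx.1.2 hx'.1.1 hx'.1.2 hx.2.2 hx'.2.2 heq
        exact Prod.ext this.1 this.2
    refine hinj.trans (Finset.card_image_le.trans ?_)
    rw [Nat.card_Icc, Nat.add_sub_cancel]
  have hQcard : Q.card ≤ A.card + 2 * (M / e) := by
    have hsub : Q ⊆ A.image (fun a => (a, a)) ∪ (Qlt ∪ Qlt.image Prod.swap) := by
      intro x hx
      rw [hQ, Finset.mem_filter, Finset.mem_product] at hx
      obtain ⟨⟨h1, h2⟩, h3⟩ := hx
      rcases lt_trichotomy x.1 x.2 with h | h | h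
      · apply Finset.mem_union_right
        apply Finset.mem_union_right
        rw [Finset.mem_image]
        refine ⟨(x.2, x.1), ?_, rfl⟩
        rw [hQlt, Finset.mem_filter, Finset.mem_product]
        exact ⟨⟨h2, h1⟩, h3.symm, h⟩
      · apply Finset.mem_union_left
        rw [Finset.mem_image]
        exact ⟨x.1, h1, Prod.ext rfl h⟩
      · apply Finset.mem_union_right
        apply Finset.mem_union_left
        rw [hQlt, Finset.mem_filter, Finset.mem_product]
        exact ⟨⟨h1, h2⟩, h3, h⟩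
    calc Q.card ≤ _ := Finset.card_le_card hsub
      _ ≤ (A.image (fun a => (a, a))).card + (Qlt ∪ Qlt.image Prod.swap).card := Finset.card_union_le _ _
      _ ≤ A.card + (Qlt.card + (Qlt.image Prod.swap).card) := by
          gcongr
          · exact Finset.card_image_le
          · exact Finset.card_union_le _ _
      _ ≤ A.card + (M / e + M / e) := by
          gcongr
          exact Finset.card_image_le.trans hQlt_card
      _ = _ := by ring
  have hfib : Q.card = ∑ k ∈ T, ((A.filter (fun a => φ a = k)).card) ^ 2 := by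
    have h1 : Q.card = ∑ a ∈ A, (A.filter (fun c => φ a = φ c)).card := by
      rw [hQ, Finset.card_filter, Finset.sum_product]
      apply Finset.sum_congr rfl
      intro a _
      rw [Finset.card_filter]
    rw [h1, ← Finset.sum_fiberwise_of_maps_to hφ]
    apply Finset.sum_congr rfl
    intro k _
    rw [sq, ← smul_eq_mul, ← Finset.sum_const]
    apply Finset.sum_congr rfl
    intro a ha
    rw [Finset.mem_filter] at ha
    congr 1
    apply Finset.filter_congr
    intro c _
    rw [ha.2]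
    exact eq_comm
  have hAsum : A.card = ∑ k ∈ T, (A.filter (fun a => φ a = k)).card :=
    Finset.card_eq_sum_card_fiberwise hφ
  calc A.card ^ 2 = (∑ k ∈ T, (A.filter (fun a => φ a = k)).card) ^ 2 := by rw [← hAsum]
    _ ≤ T.card * ∑ k ∈ T, ((A.filter (fun a => φ a = k)).card) ^ 2 := sq_sum_le_card_mul_sum_sq
    _ = T.card * Q.card := by rw [hfib]
    _ ≤ _ := by gcongr

/-- The basic inequality. -/
theorem basic (N : ℕ) (A : Finset ℕ) (hA : IsSidon (A : Set ℕ))
    (hAN : A ⊆ (Finset.Icc 1 N).image (fun n : ℕ => n ^ 2)) (P : Finset ℕ)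
    (hP : ∀ p ∈ P, p.Prime ∧ p ≠ 2) :
    A.card ^ 2 * 2 ^ P.card ≤ (∏ p ∈ P, (p + 1)) * (A.card + 2 * (N ^ 2 / ∏ p ∈ P, p)) := by
  classical
  have hodd : ∀ p ∈ P, Odd p := fun p hp => (hP p hp).1.odd_of_ne_two (hP p hp).2
  set e := ∏ p ∈ P, p with he
  have he0 : 0 < e := Finset.prod_pos fun p hp => (hP p hp).1.pos
  set φ : ℕ → (∀ p ∈ P, ℕ) := fun a p _ => a % p with hφ
  set T : Finset (∀ p ∈ P, ℕ) := P.pi (fun p => sqres p) with hT
  have hTcard : T.card * 2 ^ P.card ≤ ∏ p ∈ P, (p + 1) := by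
    rw [hT, Finset.card_pi, ← Finset.prod_const, ← Finset.prod_mul_distrib]
    apply Finset.prod_le_prod'
    intro p hp
    obtain ⟨t, ht⟩ := hodd p hp
    have := sqres_card p
    omega
  have hmem : ∀ a ∈ A, ∃ n ∈ Finset.Icc 1 N, n ^ 2 = a := by
    intro a ha
    exact Finset.mem_image.1 (hAN ha)
  have h := fibre_count A hA (N ^ 2) e he0 (by
    intro a ha
    obtain ⟨n, hn, rfl⟩ := hmem a ha
    rw [Finset.mem_Icc] at hn
    exact Nat.pow_le_pow_left hn.2 2) φ T (by
    intro a ha
    obtain ⟨n, hn, rfl⟩ := hmem a ha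
    rw [hT, Finset.mem_pi]
    intro p hp
    exact mem_sqres (hodd p hp) n) (by
    intro a _ c _ hac hlt
    rw [he]
    apply Finset.prod_primes_dvd
    · intro p hp
      exact (hP p hp).1.prime
    · intro p hp
      have h1 : a % p = c % p := congrFun (congrFun hac p) hp
      exact (Nat.modEq_iff_dvd' hlt.le).1 h1.symm)
  calc A.card ^ 2 * 2 ^ P.card ≤ T.card * (A.card + 2 * (N ^ 2 / e)) * 2 ^ P.card := by gcongr
    _ = (T.card * 2 ^ P.card) * (A.card + 2 * (N ^ 2 / e)) := by ring
    _ ≤ _ := by gcongr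

end Pool.Agent.Lib.Pb27023
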