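import Pool.Agent.Lib.Pb27023.Comb
import Pool.Agent.Lib.PntAP.PntAP

set_option autoImplicit false

namespace Pool.Agent.Lib.Pb27023

open Finset Filter Topology

lemma prod_mono_subset (S T : Finset ℕ) (f : ℕ → ℝ) (hST : S ⊆ T) (h : ∀ i ∈ T, 1 ≤ f i) :
    ∏ i ∈ S, f i ≤ ∏ i ∈ T, f i := by
  classical
  rw [← Finset.prod_sdiff hST]
  have h1 : 1 ≤ ∏ i ∈ T \ S, f i := by
    apply Finset.prod_induction f (fun x => 1 ≤ x)
    · intro a b ha hb
      exact one_le_mul_of_one_le_of_one_le ha hb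
    · exact le_rfl
    · intro x hx
      exact h x (Finset.mem_sdiff.1 hx).1
  have h2 : 0 ≤ ∏ i ∈ S, f i := Finset.prod_nonneg fun i hi => le_trans zero_le_one (h i (hST hi))
  exact le_mul_of_one_le_left h2 h1

lemma prod_one_add_inv_le (P : Finset ℕ) (m : ℕ) (hP : P ⊆ Finset.Icc 1 m) :
    ∏ p ∈ P, (1 + 1 / (p : ℝ)) ≤ m + 1 := by
  have h1 : ∀ m : ℕ, ∏ p ∈ Finset.Icc 1 m, (1 + 1 / (p : ℝ)) = m + 1 := by
    intro m
    induction m with
    | zero => simp
    | succ m ih =>
      rw [Finset.prod_Icc_succ_top (by omega), ih]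
      push_cast
      field_simp
  rw [← h1 m]
  apply prod_mono_subset _ _ _ hP
  intro p _
  have : (0 : ℝ) ≤ 1 / (p : ℝ) := by positivity
  linarith

/-- The basic inequality in real form. -/
lemma real_bound (N : ℕ) (hN : 1 ≤ N) (A : Finset ℕ) (hA : IsSidon (A : Set ℕ))
    (hAN : A ⊆ (Finset.Icc 1 N).image (fun n : ℕ => n ^ 2)) (P : Finset ℕ) (m : ℕ)
    (hP : ∀ p ∈ P, p.Prime ∧ p ≠ 2) (hPm : P ⊆ Finset.Icc 1 m) (he : ∏ p ∈ P, (p : ℝ) ≤ N) :
    (A.card : ℝ) ^ 2 * 2 ^ P.card ≤ 3 * (m + 1) * N ^ 2 := by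
  have hb := basic N A hA hAN P hP
  have hcard : (A.card : ℝ) ≤ N := by
    have h1 := Finset.card_le_card hAN
    have h2 : A.card ≤ N := h1.trans (Finset.card_image_le.trans (by rw [Nat.card_Icc]; omega))
    exact_mod_cast h2
  have hN1 : (1 : ℝ) ≤ N := by exact_mod_cast hN
  set e : ℕ := ∏ p ∈ P, p with hedef
  have he0 : 0 < e := Finset.prod_pos fun p hp => (hP p hp).1.pos
  have heR : (0 : ℝ) < e := by exact_mod_cast he0
  have heN : (e : ℝ) ≤ N := by rw [hedef]; push_cast; exact he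
  have hprod : ((∏ p ∈ P, (p + 1) : ℕ) : ℝ) ≤ e * (m + 1) := by
    have h1 : ((∏ p ∈ P, (p + 1) : ℕ) : ℝ) = e * ∏ p ∈ P, (1 + 1 / (p : ℝ)) := by
      rw [hedef]
      push_cast
      rw [← Finset.prod_mul_distrib]
      apply Finset.prod_congr rfl
      intro p hp
      have : (p : ℝ) ≠ 0 := by exact_mod_cast (hP p hp).1.ne_zero
      field_simp
    rw [h1]
    exact mul_le_mul_of_nonneg_left (prod_one_add_inv_le P m hPm) heR.le
  have hdiv : ((N ^ 2 / e : ℕ) : ℝ) ≤ (N : ℝ) ^ 2 / e := by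
    have := @Nat.cast_div_le ℝ _ _ _ (N ^ 2) e
    push_cast at this
    exact this
  have hb2 : (A.card : ℝ) ^ 2 * 2 ^ P.card ≤
      ((∏ p ∈ P, (p + 1) : ℕ) : ℝ) * (A.card + 2 * ((N ^ 2 / e : ℕ) : ℝ)) := by exact_mod_cast hb
  calc (A.card : ℝ) ^ 2 * 2 ^ P.card ≤ _ := hb2
    _ ≤ (e * (m + 1)) * (N + 2 * ((N : ℝ) ^ 2 / e)) := by gcongr
    _ = (m + 1) * (e * N + 2 * N ^ 2) := by field_simp
    _ ≤ (m + 1) * (N * N + 2 * N ^ 2) := by gcongr
    _ = _ := by ring

lemma eventually_params (ε : ℝ) (hε : 0 < ε) (hε1 : ε ≤ 1) : ∀ᶠ L : ℝ in atTop,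
    0 < Real.log L ∧ ∃ P : Finset ℕ, ∃ m : ℕ, (∀ p ∈ P, p.Prime ∧ p ≠ 2) ∧ P ⊆ Finset.Icc 1 m ∧
      ∏ p ∈ P, (p : ℝ) ≤ Real.exp L ∧
      Real.log 3 + Real.log (m + 1) + 2 * (Real.log 2 / 2 - ε) * (L / Real.log L) ≤ P.card * Real.log 2 := by
  set η : ℝ := ε / 4 with hη
  have hη0 : 0 < η := by positivity
  have hη1 : η ≤ 1 / 4 := by rw [hη]; linarith
  have hunit : IsUnit (1 : ZMod 1) := isUnit_one
  have hθ := (PntAP.thetaAP_tendsto hunit).eventually (ge_mem_nhds (show ((Nat.totient 1 : ℕ) : ℝ)⁻¹ < 1 + η by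
    simp; exact hη0))
  have hπ := (PntAP.piAP_tendsto hunit).eventually (le_mem_nhds (show 1 - η < ((Nat.totient 1 : ℕ) : ℝ)⁻¹ by
    simp; exact hη0))
  have hx : Tendsto (fun L : ℝ => (1 - η) * L) atTop atTop :=
    tendsto_id.const_mul_atTop (by linarith)
  have hlog := Real.tendsto_log_atTop
  have h3 : Tendsto (fun L : ℝ => Real.log (2 * L) * Real.log L / L) atTop (𝓝 0) := by
    have h4 : Tendsto (fun L : ℝ => Real.log L ^ 2 / L) atTop (𝓝 0) := by
      have := (Real.isLittleO_pow_log_id_atTop (n := 2)).tendsto_div_nhds_zero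
      simpa using this
    have h5 : Tendsto (fun L : ℝ => Real.log L / L) atTop (𝓝 0) := by
      have := Real.isLittleO_log_id_atTop.tendsto_div_nhds_zero
      simpa using this
    have h6 := (h5.const_mul (Real.log 2)).add h4
    rw [mul_zero, add_zero] at h6
    refine h6.congr' ?_
    filter_upwards [eventually_gt_atTop 0] with L hL
    rw [Real.log_mul (by norm_num) hL.ne']
    ring
  have h7 : Tendsto (fun L : ℝ => (Real.log 3 + Real.log 2) * (Real.log L / L)) atTop (𝓝 0) := by
    have h5 : Tendsto (fun L : ℝ => Real.log L / L) atTop (𝓝 0) := by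
      have := Real.isLittleO_log_id_atTop.tendsto_div_nhds_zero
      simpa using this
    have := h5.const_mul (Real.log 3 + Real.log 2)
    rwa [mul_zero] at this
  have h8 := h3.add h7
  rw [add_zero] at h8
  filter_upwards [hx.eventually hθ, hx.eventually hπ, hx.eventually (eventually_ge_atTop 3),
    hlog.eventually_ge_atTop 1, eventually_ge_atTop 4,
    h8.eventually (ge_mem_nhds (show (0 : ℝ) < ε by linarith))] with L e1 e2 e3 e4 e5 e6
  have hL0 : 0 < L := by linarith
  have hlL : 0 < Real.log L := by linarith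
  refine ⟨hlL, ?_⟩
  set x : ℝ := (1 - η) * L with hxdef
  have hx0 : 0 < x := by linarith
  have hxL : x ≤ L := by rw [hxdef]; nlinarith
  have hlogx : 0 < Real.log x := Real.log_pos (by linarith)
  set S := PntAP.primesAP (1 : ZMod 1) x with hS
  refine ⟨S.erase 2, ⌊x⌋₊, ?_, ?_, ?_, ?_⟩
  · intro p hp
    rw [Finset.mem_erase] at hp
    exact ⟨(PntAP.mem_primesAP.1 hp.2).2.1, hp.1⟩
  · intro p hp
    rw [Finset.mem_erase] at hp
    have := (PntAP.mem_primesAP.1 hp.2).1
    rw [Finset.mem_Icc]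
    exact this
  · have hθx : PntAP.thetaAP (1 : ZMod 1) x ≤ L := by
      rw [div_le_iff₀ hx0] at e1
      refine e1.trans ?_
      rw [hxdef]
      nlinarith [mul_pos hη0 hη0]
    have h9 : ∏ p ∈ S.erase 2, (p : ℝ) ≤ ∏ p ∈ S, (p : ℝ) := by
      apply prod_mono_subset _ _ _ (Finset.erase_subset _ _)
      intro p hp
      have := (PntAP.mem_primesAP.1 hp).1.1
      exact_mod_cast this
    refine h9.trans ?_
    rw [← Real.log_le_log_iff (Finset.prod_pos fun p hp => by
      have := (PntAP.mem_primesAP.1 hp).2.1.pos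
      exact_mod_cast this) (Real.exp_pos _), Real.log_exp, Real.log_prod (fun p hp => by
      have := (PntAP.mem_primesAP.1 hp).2.1.ne_zero
      exact_mod_cast this)]
    exact hθx
  · have hcard : ((S.card : ℕ) : ℝ) - 1 ≤ ((S.erase 2).card : ℝ) := by
      have h1 : S.card - 1 ≤ (S.erase 2).card := Finset.pred_card_le_card_erase
      have h2 : S.card ≤ (S.erase 2).card + 1 := by omega
      have h3 : ((S.card : ℕ) : ℝ) ≤ ((S.erase 2).card : ℝ) + 1 := by exact_mod_cast h2
      linarith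
    have hπx : (1 - η) * x / Real.log L ≤ (S.card : ℝ) := by
      have h1 : (1 - η) * x ≤ (S.card : ℝ) * Real.log x := by
        have := e2
        rw [le_div_iff₀ hx0] at this
        exact this
      rw [div_le_iff₀ hlL]
      refine h1.trans ?_
      apply mul_le_mul_of_nonneg_left _ (Nat.cast_nonneg _)
      exact Real.log_le_log hx0 hxL
    have hm : Real.log ((⌊x⌋₊ : ℝ) + 1) ≤ Real.log (2 * L) := by
      apply Real.log_le_log (by positivity)
      have := Nat.floor_le hx0.le
      linarith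
    have hlog2 : 0 < Real.log 2 := Real.log_pos (by norm_num)
    have hlog21 : Real.log 2 ≤ 1 := by have := Real.log_two_lt_d9; linarith
    -- main computation
    have h10 : (Real.log 3 + Real.log 2 + Real.log (2 * L)) ≤ ε * (L / Real.log L) := by
      have h11 : (Real.log (2 * L) + (Real.log 3 + Real.log 2)) * (Real.log L / L) ≤ ε := by
        calc _ = Real.log (2 * L) * Real.log L / L + (Real.log 3 + Real.log 2) * (Real.log L / L) := by ring
          _ ≤ ε := e6
      have h12 : 0 < L / Real.log L := by positivity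
      calc (Real.log 3 + Real.log 2 + Real.log (2 * L)) =
            (Real.log (2 * L) + (Real.log 3 + Real.log 2)) * (Real.log L / L) * (L / Real.log L) := by
              field_simp
              ring
        _ ≤ ε * (L / Real.log L) := by gcongr
    have h13 : (1 - 2 * η) * (L / Real.log L) ≤ (S.card : ℝ) := by
      refine le_trans ?_ hπx
      rw [hxdef, mul_div_assoc']
      apply div_le_div_of_nonneg_right _ hlL.le
      nlinarith [mul_pos hη0 hη0]
    have h14 : ((1 - 2 * η) * (L / Real.log L) - 1) * Real.log 2 ≤ ((S.erase 2).card : ℝ) * Real.log 2 := by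
      apply mul_le_mul_of_nonneg_right _ hlog2.le
      linarith
    refine le_trans ?_ h14
    have h15 : 0 < L / Real.log L := by positivity
    have h16 : 2 * η * (L / Real.log L) * Real.log 2 ≤ ε / 2 * (L / Real.log L) := by
      have : 2 * η * Real.log 2 ≤ ε / 2 := by rw [hη]; nlinarith
      calc 2 * η * (L / Real.log L) * Real.log 2 = (2 * η * Real.log 2) * (L / Real.log L) := by ring
        _ ≤ _ := by gcongr
    have h17 : 0 < ε * (L / Real.log L) := by positivity
    nlinarith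

/-- **Upper bound for Sidon sets of squares.** -/
theorem upper (ε : ℝ) (hε : 0 < ε) : ∀ᶠ N : ℕ in atTop, ∀ A : Finset ℕ, IsSidon (A : Set ℕ) →
    A ⊆ (Finset.Icc 1 N).image (fun n : ℕ => n ^ 2) →
    (A.card : ℝ) ≤ (N : ℝ) ^ (1 - (Real.log 2 / 2 - ε) / Real.log (Real.log N)) := by
  set ε' := min ε 1 with hε'
  have hε'0 : 0 < ε' := lt_min hε one_pos
  have hlogN : Tendsto (fun N : ℕ => Real.log (N : ℝ)) atTop atTop :=
    Real.tendsto_log_atTop.comp tendsto_natCast_atTop_atTop
  filter_upwards [hlogN.eventually (eventually_params ε' hε'0 (min_le_right _ _)), eventually_ge_atTop 1,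
    hlogN.eventually_ge_atTop 1] with N hN hN1 hL1
  intro A hA hAN
  obtain ⟨hlL, P, m, hP, hPm, he, hmain⟩ := hN
  have hN0 : (0 : ℝ) < N := by
    have : 0 < N := by omega
    exact_mod_cast this
  rw [Real.exp_log hN0] at he
  set L := Real.log (N : ℝ) with hL
  have hb := real_bound N hN1 A hA hAN P m hP hPm he
  rcases Nat.eq_zero_or_pos A.card with h0 | h0
  · rw [h0]
    simp
    positivity
  have hAR : (0 : ℝ) < A.card := by exact_mod_cast h0
  have hlogb : 2 * Real.log A.card + P.card * Real.log 2 ≤ Real.log 3 + Real.log (m + 1) + 2 * L := by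
    have h1 := Real.log_le_log (by positivity) hb
    rw [Real.log_mul (by positivity) (by positivity), Real.log_pow, Real.log_pow,
      Real.log_mul (by positivity) (by positivity), Real.log_mul (by positivity) (by positivity),
      Real.log_pow] at h1
    push_cast at h1
    exact h1
  rw [← Real.log_le_log_iff hAR (by positivity), Real.log_rpow hN0, ← hL]
  have h2 : 2 * (Real.log 2 / 2 - ε) * (L / Real.log L) ≤ 2 * (Real.log 2 / 2 - ε') * (L / Real.log L) := by
    have h3 : 0 < L / Real.log L := by positivity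
    have h4 : ε' ≤ ε := min_le_left _ _
    nlinarith
  have h5 : (1 - (Real.log 2 / 2 - ε) / Real.log L) * L = L - (Real.log 2 / 2 - ε) * (L / Real.log L) := by
    ring
  rw [h5]
  linarith

end Pool.Agent.Lib.Pb27023
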